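import Pool.Agent.Helper38.WY.Goals6
import Pool.Agent.Helper94.PW.NEVL
import Pool.Agent.Helper16.PW.NALG
import Pool.Agent.Helper31.RP.STP

/-!
# Project WY, packet O_TRI: the trivial element of the Selmer group
-/

set_option autoImplicit false

namespace Pool.Agent.Helper39.WY

open NumberField Polynomial Module IsDedekindDomain
open Pool.Agent.Helper51.RP Pool.Agent.Helper42.PW Pool.Agent.Helper38.WY

/-- The product of the powers `ε^i`, `i < p`, of a `p`-th root of unity is `1` (`p` odd). -/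
lemma prod_pow_eq_one {p : ℕ} [hp : Fact p.Prime] (hp2 : p ≠ 2) {R : Type} [CommRing R] {ε : R}
    (hε : ε ^ p = 1) : ∏ i ∈ Finset.range p, ε ^ i = 1 := by
  rw [Finset.prod_pow_eq_pow_sum]
  have h1 : p ∣ (∑ i ∈ Finset.range p, i) * 2 := by
    rw [Finset.sum_range_id_mul_two]
    exact Dvd.intro _ rfl
  have h2 : p ∣ ∑ i ∈ Finset.range p, i := by
    refine Nat.Coprime.dvd_of_dvd_mul_right ?_ h1
    exact (Nat.coprime_primes hp.out Nat.prime_two).mpr hp2
  obtain ⟨c, hc⟩ := h2
  rw [hc, pow_mul, hε, one_pow]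

lemma sum_single {p : ℕ} {R : Type} [CommRing R] (c b : R) {k : ℕ} (hk : k < p) :
    ∑ j ∈ Finset.range p, (if j = k then c else 0) * b ^ j = c * b ^ k := by
  rw [Finset.sum_eq_single k]
  · simp
  · intro j _ hj
    simp [hj]
  · intro h
    exact absurd (Finset.mem_range.mpr hk) h

/-- `a⁻¹` is a value of the norm form. -/
lemma nf_single {p : ℕ} [hp : Fact p.Prime] (hp2 : p ≠ 2) {F : Type} [Field F] {ε a : F}
    (hε : IsPrimitiveRoot ε p) (ha : a ≠ 0) :
    nf p a (fun j => if j = p - 1 then a⁻¹ else 0) = a⁻¹ := by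
  obtain ⟨β, hβ⟩ := IsAlgClosed.exists_pow_nat_eq (algebraMap F (AlgebraicClosure F) a) hp.out.pos
  have hinj := (algebraMap F (AlgebraicClosure F)).injective
  apply hinj
  have ha' : algebraMap F (AlgebraicClosure F) a ≠ 0 := by
    simpa using ha
  have hβ0 : β ≠ 0 := by
    rintro rfl
    rw [zero_pow hp.out.ne_zero] at hβ
    exact ha' hβ.symm
  have hε' := hε.map_of_injective hinj
  rw [Pool.Agent.Helper16.PW.nf_map, ← hβ,
    Pool.Agent.Helper94.PW.n_evl p (AlgebraicClosure F) _ β hε' hβ0]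
  have h1 : ∀ i ∈ Finset.range p, ∑ j ∈ Finset.range p,
      (algebraMap F (AlgebraicClosure F)) (if j = p - 1 then a⁻¹ else 0) *
        ((algebraMap F (AlgebraicClosure F)) ε ^ i * β) ^ j =
      (algebraMap F (AlgebraicClosure F) a)⁻¹ *
        (((algebraMap F (AlgebraicClosure F)) ε ^ i) ^ (p - 1) * β ^ (p - 1)) := by
    intro i _
    rw [← mul_pow, ← sum_single (p := p) _ _ (Nat.sub_lt hp.out.pos one_pos)]
    refine Finset.sum_congr rfl fun j _ => ?_
    split_ifs <;> simp
  rw [Finset.prod_congr rfl h1, Finset.prod_mul_distrib, Finset.prod_mul_distrib,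
    Finset.prod_pow _ (p - 1), prod_pow_eq_one hp2 hε'.pow_eq_one]
  simp only [Finset.prod_const, Finset.card_range, one_pow, one_mul]
  rw [← pow_mul, mul_comm (p - 1) p, pow_mul, hβ, map_inv₀]
  obtain ⟨q, hq⟩ : ∃ q, p = q + 1 := ⟨p - 1, (Nat.sub_add_cancel hp.out.pos).symm⟩
  have hq' : p - 1 = q := by omega
  rw [hq', hq, pow_succ, mul_right_comm, ← mul_pow, inv_mul_cancel₀ ha', one_pow, one_mul]

lemma ordv_mul_pow {M : Type} [Field M] [NumberField M] (v : HeightOneSpectrum (𝓞 M)) {x y : M}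
    (hx : x ≠ 0) (hy : y ≠ 0) (n : ℕ) : ordv v (x * y ^ n) = ordv v x + n * ordv v y := by
  rw [Pool.Agent.Helper31.RP.ordv_mul v hx (pow_ne_zero _ hy), Pool.Agent.Helper31.RP.ordv_pow]

/-- If `a y^p` is close to `1` then `p` divides the valuation of `a`. -/
lemma dvd_of_PwAt {p : ℕ} [hp : Fact p.Prime] {F : Type} [Field F] [NumberField F]
    (W : HeightOneSpectrum (𝓞 F)) {a : F} (ha : a ≠ 0) (h : PwAt p W a) :
    (p : ℤ) ∣ ordv W a := by
  obtain ⟨y, h1, -⟩ := h
  have hv : W.valuation F (a * y ^ p) = 1 := by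
    have h3 : a * y ^ p = 1 + (a * y ^ p - 1) := by ring
    rw [h3]
    exact Valuation.map_one_add_of_lt _ h1
  have hy : y ≠ 0 := by
    rintro rfl
    rw [zero_pow hp.out.ne_zero, mul_zero, map_zero] at hv
    exact zero_ne_one hv
  have h2 : ordv W (a * y ^ p) = 0 := by
    rw [ordv, hv]
    simp
  rw [ordv_mul_pow W ha hy] at h2
  exact ⟨-ordv W y, by linarith⟩

theorem o_tri : O_TRI := by
  intro p hp hp2 F _ _ ε a hε ha
  constructor
  · intro W
    refine ⟨fun _ => ⟨fun h => h, fun _ => ⟨p - 1, a⁻¹, ?_⟩⟩, fun _ =>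
      ⟨⟨fun j => if j = p - 1 then a⁻¹ else 0, ?_⟩, dvd_of_PwAt W ha⟩⟩
    · have hodd : Even (p - 1) := by
        have := hp.out.odd_of_ne_two hp2
        exact Nat.Odd.sub_odd this odd_one
      rw [hodd.neg_one_pow, one_mul]
      have : a * a ^ (p - 1) * a⁻¹ ^ p - 1 = 0 := by
        rw [← pow_succ', Nat.sub_add_cancel hp.out.pos, ← mul_pow, mul_inv_cancel₀ ha, one_pow,
          sub_self]
      rw [this]
      simp
    · rw [nf_single hp2 hε ha, mul_inv_cancel₀ ha]
      constructor <;> simp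
  · intro τ
    obtain ⟨β, hβ⟩ := IsAlgClosed.exists_pow_nat_eq (τ a) hp.out.pos
    have hεp : (τ ε) ^ p = 1 := by rw [← map_pow, hε.pow_eq_one, map_one]
    have hc : ∀ i, cjs p (τ ε) β (fun j => if j = 1 then 1 else 0) i = τ ε ^ i * β := by
      intro i
      rw [cjs, sum_single _ _ hp.out.one_lt, pow_one, one_mul]
    refine ⟨β, fun j => if j = 1 then 1 else 0, p, hβ, fun j => ?_, hp.out.pos, ?_, fun i => ?_⟩
    · apply subset_closure
      dsimp only
      split_ifs
      · exact ⟨1, map_one _⟩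
      · exact ⟨0, map_zero _⟩
    · rw [Finset.prod_congr rfl fun i _ => hc i, Finset.prod_mul_distrib, prod_pow_eq_one hp2 hεp,
        one_mul, Finset.prod_const, Finset.card_range, hβ]
    · rw [hc, hc, mul_pow, mul_pow, ← pow_mul, mul_comm i p, pow_mul, hεp, one_pow, pow_zero,
        one_pow]

end Pool.Agent.Helper39.WY
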